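import Mathlib

/-!
Definitions for MP_155d71_an.
-/

open scoped BoundedContinuousFunction

namespace Pool.Agent.P.MP_155d71_an

/-- The left translate `ℓ_s f` of a bounded continuous complex function: `(ℓ_s f)(t) = f(s t)`. -/
noncomputable def leftTranslate {S : Type*} [Semigroup S] [TopologicalSpace S]
    [SeparatelyContinuousMul S] (s : S) (f : S →ᵇ ℂ) : S →ᵇ ℂ :=
  f.compContinuous ⟨fun t => s * t, continuous_const_mul s⟩

/-- There is a multiplicative mean on `C_b(S)` that is left invariant on `LUC(S)`, the set of `f`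
with `s ↦ ℓ_s f` norm continuous. Its restriction to `LUC(S)` is a multiplicative left invariant
mean on `LUC(S)`, so `S` is extremely left amenable. -/
structure HasMultInvMean (S : Type*) [Semigroup S] [TopologicalSpace S]
    [SeparatelyContinuousMul S] : Prop where
  exists_mean : ∃ m : (S →ᵇ ℂ) →L[ℂ] ℂ, m 1 = 1 ∧ ‖m‖ = 1 ∧ (∀ f g, m (f * g) = m f * m g) ∧
    ∀ f : S →ᵇ ℂ, (Continuous fun s : S => leftTranslate s f) →
      ∀ s : S, m (leftTranslate s f) = m f

/-- `T` is a weakly continuous, norm nonexpansive representation of `S` on `C`.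
Here `WeakSpace 𝕜 E` is `E` with its weak topology, so the subtype `C` carries the weak topology,
and `(toWeakSpace 𝕜 E).symm` is the identity map back to the normed space `E`. -/
structure IsWeaklyContNonexpRep {𝕜 E : Type*} [RCLike 𝕜] [NormedAddCommGroup E] [NormedSpace 𝕜 E]
    {S : Type*} [Semigroup S] [TopologicalSpace S]
    (C : Set (WeakSpace 𝕜 E)) (T : S → C → C) : Prop where
  map_mul : ∀ s t x, T (s * t) x = T s (T t x)
  nonexpansive : ∀ s x y, ‖(toWeakSpace 𝕜 E).symm (T s x) - (toWeakSpace 𝕜 E).symm (T s y)‖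
    ≤ ‖(toWeakSpace 𝕜 E).symm x - (toWeakSpace 𝕜 E).symm y‖
  continuous_point : ∀ s, Continuous fun x => T s x
  continuous_semigroup : ∀ x, Continuous fun s => T s x

/-- `C` is weakly closed, weakly compact and convex. -/
structure IsWeaklyCompactConvex {𝕜 E : Type*} [RCLike 𝕜] [NormedAddCommGroup E] [NormedSpace 𝕜 E]
    (C : Set (WeakSpace 𝕜 E)) : Prop where
  isClosed : IsClosed C
  isCompact : IsCompact C
  convex : ∀ x ∈ C, ∀ y ∈ C, ∀ a b : ℝ, 0 ≤ a → 0 ≤ b → a + b = 1 →
    (a : 𝕜) • x + (b : 𝕜) • y ∈ C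

/-- The orbit `{T_s c : s ∈ S}` is relatively weakly compact. -/
structure HasRelWeaklyCompactOrbit {𝕜 E : Type*} [RCLike 𝕜] [NormedAddCommGroup E]
    [NormedSpace 𝕜 E] {S : Type*} (C : Set (WeakSpace 𝕜 E)) (T : S → C → C) (c : C) : Prop where
  isCompact_closure : IsCompact (closure (Set.range fun s => (T s c : WeakSpace 𝕜 E)))

end Pool.Agent.P.MP_155d71_an
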