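import Pool.Agent.P.MP_155d71_an.Defs

open scoped BoundedContinuousFunction InnerProductSpace Topology
open Filter RCLike

namespace Pool.Agent.P.MP_155d71_an

section ELA

variable {S : Type*} [Semigroup S] [TopologicalSpace S] [SeparatelyContinuousMul S]

variable (S) in
/-- `LUC(S)`: the functions `f ∈ C_b(S)` for which `s ↦ ℓ_s f` is continuous for the sup norm. -/
def LUC : Set (S →ᵇ ℂ) := {f | Continuous fun s : S => leftTranslate s f}

variable (S) in
/-- A multiplicative mean on `C_b(S)` that is left invariant on `LUC(S)`. -/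
def IsExtremelyLeftAmenable : Prop :=
  ∃ m : (S →ᵇ ℂ) →L[ℂ] ℂ, m 1 = 1 ∧ ‖m‖ = 1 ∧ (∀ f g, m (f * g) = m f * m g) ∧
    ∀ f : S →ᵇ ℂ, (Continuous fun s : S => leftTranslate s f) → ∀ s, m (leftTranslate s f) = m f

theorem ela_of_point (t₀ : S) (h : ∀ f ∈ LUC S, ∀ s : S, f (s * t₀) = f t₀) :
    IsExtremelyLeftAmenable S := by
  have : Nonempty S := ⟨t₀⟩
  let m : (S →ᵇ ℂ) →L[ℂ] ℂ := BoundedContinuousFunction.evalCLM ℂ t₀
  have hm : ∀ f : S →ᵇ ℂ, m f = f t₀ := fun f => rfl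
  have h1 : m 1 = 1 := rfl
  refine ⟨m, h1, ?_, fun f g => rfl, fun f hf s => h f hf s⟩
  apply le_antisymm
  · refine ContinuousLinearMap.opNorm_le_bound _ zero_le_one fun f => ?_
    rw [hm, one_mul]
    exact BoundedContinuousFunction.norm_coe_le_norm _ _
  · have h2 := m.le_opNorm 1
    rw [h1, norm_one, norm_one, mul_one] at h2
    exact h2

end ELA

section Hilbert

variable {𝕜 : Type*} [RCLike 𝕜] {E : Type*} [NormedAddCommGroup E] [InnerProductSpace 𝕜 E]

theorem weak_eval_continuous (l : StrongDual 𝕜 E) :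
    Continuous fun x : WeakSpace 𝕜 E => l ((toWeakSpace 𝕜 E).symm x) :=
  WeakBilin.eval_continuous (topDualPairing 𝕜 E).flip l

theorem weak_inner_continuous (u : E) :
    Continuous fun x : WeakSpace 𝕜 E => re ⟪u, (toWeakSpace 𝕜 E).symm x⟫_𝕜 :=
  RCLike.continuous_re.comp (weak_eval_continuous (innerSL 𝕜 u))

theorem isCompact_weak_ball [CompleteSpace E] :
    IsCompact {x : WeakSpace 𝕜 E | ‖(toWeakSpace 𝕜 E).symm x‖ ≤ 1} := by
  let φ : WeakDual 𝕜 E → WeakSpace 𝕜 E := fun ψ =>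
    toWeakSpace 𝕜 E ((InnerProductSpace.toDual 𝕜 E).symm (WeakDual.toStrongDual ψ))
  have hφ : Continuous φ := by
    apply WeakBilin.continuous_of_continuous_eval
    intro l
    have : (fun ψ : WeakDual 𝕜 E => (topDualPairing 𝕜 E).flip (φ ψ) l)
        = fun ψ : WeakDual 𝕜 E =>
          (starRingEnd 𝕜) (ψ ((InnerProductSpace.toDual 𝕜 E).symm l)) := by
      funext ψ
      change l ((InnerProductSpace.toDual 𝕜 E).symm (WeakDual.toStrongDual ψ)) = _
      rw [← InnerProductSpace.toDual_symm_apply, ← inner_conj_symm,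
        InnerProductSpace.toDual_symm_apply]
      rfl
    rw [this]
    exact RCLike.continuous_conj.comp (WeakDual.eval_continuous _)
  have hK := (WeakDual.isCompact_closedBall (𝕜 := 𝕜) (E := E) 0 1).image hφ
  convert hK using 1
  ext x
  simp only [Set.mem_ofPred_eq, Set.mem_image, Set.mem_preimage, mem_closedBall_zero_iff]
  constructor
  · intro hx
    refine ⟨StrongDual.toWeakDual (InnerProductSpace.toDual 𝕜 E ((toWeakSpace 𝕜 E).symm x)),
      ?_, ?_⟩
    · simpa using hx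
    · simp [φ]
  · rintro ⟨ψ, hψ, rfl⟩
    simpa [φ] using hψ

variable (𝕜) in
/-- The fold along `u`. -/
noncomputable def fold (u x : E) : E := x + ((max 0 (-re ⟪u, x⟫_𝕜) : ℝ) : 𝕜) • u

theorem fold_nonexp {u : E} (hu : ‖u‖ ^ 2 = 2) (x y : E) :
    ‖fold 𝕜 u x - fold 𝕜 u y‖ ≤ ‖x - y‖ := by
  set p := re ⟪u, x⟫_𝕜 with hp
  set q := re ⟪u, y⟫_𝕜 with hq
  have h1 : fold 𝕜 u x - fold 𝕜 u y = (x - y) + ((max 0 (-p) - max 0 (-q) : ℝ) : 𝕜) • u := by
    simp only [fold, ← hp, ← hq]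
    push_cast
    rw [sub_smul]
    abel
  have h2 : ‖(x - y) + ((max 0 (-p) - max 0 (-q) : ℝ) : 𝕜) • u‖ ^ 2
      = ‖x - y‖ ^ 2 + 2 * ((max 0 (-p) - max 0 (-q)) * (p - q))
        + (max 0 (-p) - max 0 (-q)) ^ 2 * 2 := by
    rw [norm_add_sq (𝕜 := 𝕜), norm_smul, mul_pow, hu, inner_smul_right, RCLike.norm_ofReal,
      sq_abs, re_ofReal_mul, inner_re_symm, inner_sub_right, map_sub]
  have h3 : 2 * ((max 0 (-p) - max 0 (-q)) * (p - q))
        + (max 0 (-p) - max 0 (-q)) ^ 2 * 2 ≤ 0 := by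
    rcases le_total 0 (-p) with h | h <;> rcases le_total 0 (-q) with h' | h' <;>
      simp only [max_eq_left, max_eq_right, h, h'] <;> nlinarith
  rw [h1]
  apply le_of_sq_le_sq _ (norm_nonneg _) |>.trans le_rfl
  all_goals nlinarith

theorem fold_zero (u : E) : fold 𝕜 u 0 = 0 := by simp [fold]

theorem fold_weak_continuous (u : E) :
    Continuous fun x : WeakSpace 𝕜 E => toWeakSpace 𝕜 E (fold 𝕜 u ((toWeakSpace 𝕜 E).symm x)) := by
  have h : (fun x : WeakSpace 𝕜 E => toWeakSpace 𝕜 E (fold 𝕜 u ((toWeakSpace 𝕜 E).symm x)))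
      = fun x : WeakSpace 𝕜 E => x + ((max 0 (-re ⟪u, (toWeakSpace 𝕜 E).symm x⟫_𝕜) : ℝ) : 𝕜) •
        toWeakSpace 𝕜 E u := by
    funext x
    simp [fold]
  rw [h]
  refine continuous_id.add (Continuous.smul ?_ continuous_const)
  exact RCLike.continuous_ofReal.comp (continuous_const.max (weak_inner_continuous u).neg)

variable (𝕜) in
/-- The positive part of the unit ball. -/
def posBall (e : ℕ → E) : Set (WeakSpace 𝕜 E) :=
  {x | ‖(toWeakSpace 𝕜 E).symm x‖ ≤ 1 ∧ ∀ n, 0 ≤ re ⟪e n, (toWeakSpace 𝕜 E).symm x⟫_𝕜}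

theorem isCompact_posBall [CompleteSpace E] (e : ℕ → E) : IsCompact (posBall 𝕜 e) := by
  have h : posBall 𝕜 e = {x : WeakSpace 𝕜 E | ‖(toWeakSpace 𝕜 E).symm x‖ ≤ 1} ∩
      ⋂ n, {x | 0 ≤ re ⟪e n, (toWeakSpace 𝕜 E).symm x⟫_𝕜} := by
    ext x
    simp [posBall]
  rw [h]
  exact isCompact_weak_ball.inter_right
    (isClosed_iInter fun n => isClosed_le continuous_const (weak_inner_continuous (e n)))

theorem convex_posBall (e : ℕ → E) :
    ∀ x ∈ posBall 𝕜 e, ∀ y ∈ posBall 𝕜 e, ∀ a b : ℝ, 0 ≤ a → 0 ≤ b → a + b = 1 →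
      (a : 𝕜) • x + (b : 𝕜) • y ∈ posBall 𝕜 e := by
  intro x hx y hy a b ha hb hab
  have h : (toWeakSpace 𝕜 E).symm ((a : 𝕜) • x + (b : 𝕜) • y)
      = (a : 𝕜) • (toWeakSpace 𝕜 E).symm x + (b : 𝕜) • (toWeakSpace 𝕜 E).symm y := by
    rw [map_add, map_smul, map_smul]
  constructor
  · rw [h]
    refine (norm_add_le _ _).trans ?_
    rw [norm_smul, norm_smul, RCLike.norm_ofReal, RCLike.norm_ofReal, abs_of_nonneg ha,
      abs_of_nonneg hb]
    have h1 := mul_le_mul_of_nonneg_left hx.1 ha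
    have h2 := mul_le_mul_of_nonneg_left hy.1 hb
    linarith
  · intro n
    rw [h, inner_add_right, inner_smul_right, inner_smul_right, map_add, re_ofReal_mul,
      re_ofReal_mul]
    exact add_nonneg (mul_nonneg ha (hx.2 n)) (mul_nonneg hb (hy.2 n))

variable {e : ℕ → E}

theorem re_inner_e (he : Orthonormal 𝕜 e) (i j : ℕ) :
    re ⟪e i, e j⟫_𝕜 = if i = j then 1 else 0 := by
  rw [orthonormal_iff_ite.1 he]
  split_ifs <;> simp

theorem norm_sub_sq_e (he : Orthonormal 𝕜 e) {a m : ℕ} (h : a ≠ m) : ‖e a - e m‖ ^ 2 = 2 := by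
  rw [norm_sub_sq (𝕜 := 𝕜), re_inner_e he, he.1, he.1, if_neg h]
  norm_num

theorem e_mem (he : Orthonormal 𝕜 e) (n : ℕ) : toWeakSpace 𝕜 E (e n) ∈ posBall 𝕜 e := by
  refine ⟨by simp [he.1], fun k => ?_⟩
  rw [LinearEquiv.symm_apply_apply, re_inner_e he]
  split_ifs <;> norm_num

theorem fold_mem (he : Orthonormal 𝕜 e) {a m : ℕ} (h : a ≠ m) {x : WeakSpace 𝕜 E}
    (hx : x ∈ posBall 𝕜 e) :
    toWeakSpace 𝕜 E (fold 𝕜 (e a - e m) ((toWeakSpace 𝕜 E).symm x)) ∈ posBall 𝕜 e := by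
  obtain ⟨h1, h2⟩ := hx
  constructor
  · rw [LinearEquiv.symm_apply_apply]
    have := fold_nonexp (𝕜 := 𝕜) (norm_sub_sq_e he h) ((toWeakSpace 𝕜 E).symm x) 0
    rw [fold_zero, sub_zero, sub_zero] at this
    exact this.trans h1
  · intro n
    rw [LinearEquiv.symm_apply_apply, fold, inner_add_right, inner_smul_right, map_add,
      re_ofReal_mul, inner_sub_right, map_sub, re_inner_e he, re_inner_e he, inner_sub_left,
      map_sub]
    have ha := h2 a
    have hm := h2 m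
    have hn := h2 n
    by_cases hna : n = a
    · subst hna
      rw [if_pos rfl, if_neg h]
      have := le_max_left 0 (-(re ⟪e n, (toWeakSpace 𝕜 E).symm x⟫_𝕜
        - re ⟪e m, (toWeakSpace 𝕜 E).symm x⟫_𝕜))
      linarith
    · by_cases hnm : n = m
      · subst hnm
        rw [if_pos rfl, if_neg hna]
        rcases le_total 0 (-(re ⟪e a, (toWeakSpace 𝕜 E).symm x⟫_𝕜
          - re ⟪e n, (toWeakSpace 𝕜 E).symm x⟫_𝕜)) with h' | h'
        · rw [max_eq_right h']
          linarith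
        · rw [max_eq_left h']
          linarith
      · rw [if_neg hna, if_neg hnm]
        linarith

theorem fold_e_self (he : Orthonormal 𝕜 e) {a m : ℕ} (h : a ≠ m) :
    fold 𝕜 (e a - e m) (e m) = e a := by
  rw [fold, inner_sub_left, map_sub, re_inner_e he, re_inner_e he, if_neg h, if_pos rfl]
  norm_num

theorem fold_e_ne (he : Orthonormal 𝕜 e) {a m n : ℕ} (h : n ≠ m) :
    fold 𝕜 (e a - e m) (e n) = e n := by
  rw [fold, inner_sub_left, map_sub, re_inner_e he, re_inner_e he, if_neg h.symm]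
  split_ifs <;> norm_num

theorem fold_tendsto (he : Orthonormal 𝕜 e) (a : ℕ) {x : E} (hx : 0 ≤ re ⟪e a, x⟫_𝕜) :
    Tendsto (fun m => fold 𝕜 (e a - e m) x) atTop (𝓝 x) := by
  have h1 : Tendsto (fun m => ‖⟪e m, x⟫_𝕜‖ ^ 2) atTop (𝓝 0) :=
    (he.inner_products_summable x).tendsto_atTop_zero
  have h2 : Tendsto (fun m => ‖⟪e m, x⟫_𝕜‖) atTop (𝓝 0) := by
    have := h1.sqrt
    simpa using this
  rw [tendsto_iff_norm_sub_tendsto_zero]
  have h3 : Tendsto (fun m => ‖⟪e m, x⟫_𝕜‖ * 2) atTop (𝓝 0) := by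
    simpa using h2.mul_const 2
  refine squeeze_zero (fun m => norm_nonneg _) (fun m => ?_) h3
  rw [fold, add_sub_cancel_left, norm_smul, RCLike.norm_ofReal,
    abs_of_nonneg (le_max_left _ _)]
  apply mul_le_mul _ _ (norm_nonneg _) (norm_nonneg _)
  · apply max_le (norm_nonneg _)
    rw [inner_sub_left, map_sub]
    have := RCLike.re_le_norm ⟪e m, x⟫_𝕜
    linarith
  · have := norm_sub_le (e a) (e m)
    rw [he.1, he.1] at this
    linarith

variable (𝕜 e) in
/-- The semigroup: weakly continuous nonexpansive self-maps of `posBall` that preserve the set of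
basis vectors. -/
def Sg : Type _ :=
  {s : posBall 𝕜 e → posBall 𝕜 e // Continuous s ∧
    (∀ x y, ‖(toWeakSpace 𝕜 E).symm (s x) - (toWeakSpace 𝕜 E).symm (s y)‖
      ≤ ‖(toWeakSpace 𝕜 E).symm x - (toWeakSpace 𝕜 E).symm y‖) ∧
    ∀ x : posBall 𝕜 e, (∃ n, (toWeakSpace 𝕜 E).symm x = e n) →
      ∃ n, (toWeakSpace 𝕜 E).symm (s x) = e n}

instance : Semigroup (Sg 𝕜 e) where
  mul s t := ⟨fun x => s.1 (t.1 x), s.2.1.comp t.2.1,
    fun x y => (s.2.2.1 _ _).trans (t.2.2.1 x y), fun x hx => s.2.2.2 _ (t.2.2.2 x hx)⟩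
  mul_assoc _ _ _ := rfl

theorem Sg.mul_apply (s t : Sg 𝕜 e) (x : posBall 𝕜 e) : (s * t).1 x = s.1 (t.1 x) := rfl

/-- The embedding of the semigroup in a product of copies of `E`. -/
noncomputable def Sg.emb (s : Sg 𝕜 e) : posBall 𝕜 e → E := fun x => (toWeakSpace 𝕜 E).symm (s.1 x)

noncomputable instance : TopologicalSpace (Sg 𝕜 e) := TopologicalSpace.induced Sg.emb inferInstance

theorem Sg.isEmbedding : Topology.IsEmbedding (Sg.emb : Sg 𝕜 e → posBall 𝕜 e → E) where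
  eq_induced := rfl
  injective s t h := by
    apply Subtype.ext
    funext x
    apply Subtype.ext
    exact (toWeakSpace 𝕜 E).symm.injective (congrFun h x)

instance : T2Space (Sg 𝕜 e) := Sg.isEmbedding.t2Space

theorem Sg.continuous_emb_apply (x : posBall 𝕜 e) : Continuous fun s : Sg 𝕜 e => s.emb x :=
  (continuous_apply x).comp Sg.isEmbedding.continuous

instance : ContinuousMul (Sg 𝕜 e) where
  continuous_mul := by
    rw [Sg.isEmbedding.continuous_iff]
    refine continuous_pi fun x => continuous_iff_continuousAt.2 fun p => ?_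
    change Tendsto (fun q : Sg 𝕜 e × Sg 𝕜 e => q.1.emb (q.2.1 x)) (𝓝 p) (𝓝 (p.1.emb (p.2.1 x)))
    rw [tendsto_iff_norm_sub_tendsto_zero]
    have h1 : Tendsto (fun q : Sg 𝕜 e × Sg 𝕜 e => ‖q.2.emb x - p.2.emb x‖
        + ‖q.1.emb (p.2.1 x) - p.1.emb (p.2.1 x)‖) (𝓝 p) (𝓝 0) := by
      have c1 : Continuous fun q : Sg 𝕜 e × Sg 𝕜 e => ‖q.2.emb x - p.2.emb x‖
          + ‖q.1.emb (p.2.1 x) - p.1.emb (p.2.1 x)‖ :=
        ((((Sg.continuous_emb_apply x).comp continuous_snd).sub continuous_const).norm).add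
          ((((Sg.continuous_emb_apply (p.2.1 x)).comp continuous_fst).sub continuous_const).norm)
      simpa using c1.tendsto p
    refine squeeze_zero (fun q => norm_nonneg _) (fun q => ?_) h1
    have h2 := q.1.2.2.1 (q.2.1 x) (p.2.1 x)
    have h3 := norm_sub_le_norm_sub_add_norm_sub (q.1.emb (q.2.1 x)) (q.1.emb (p.2.1 x))
      (p.1.emb (p.2.1 x))
    exact h3.trans (add_le_add h2 le_rfl)

/-- The identity map. -/
def Sg.one : Sg 𝕜 e := ⟨fun x => x, continuous_id, fun _ _ => le_rfl, fun _ hx => hx⟩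

/-- The constant map with value `e n`. -/
noncomputable def Sg.const (he : Orthonormal 𝕜 e) (n : ℕ) : Sg 𝕜 e :=
  ⟨fun _ => ⟨toWeakSpace 𝕜 E (e n), e_mem he n⟩, continuous_const,
    fun _ _ => by simp, fun _ _ => ⟨n, by simp⟩⟩

/-- The fold sending `e m` to `e a`. -/
noncomputable def Sg.fold (he : Orthonormal 𝕜 e) {a m : ℕ} (h : a ≠ m) : Sg 𝕜 e :=
  ⟨fun x => ⟨toWeakSpace 𝕜 E (MP_155d71_an.fold 𝕜 (e a - e m) ((toWeakSpace 𝕜 E).symm x)),
      fold_mem he h x.2⟩,
    ((fold_weak_continuous (e a - e m)).comp continuous_subtype_val).subtype_mk _,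
    fun x y => by
      simpa using fold_nonexp (𝕜 := 𝕜) (norm_sub_sq_e he h) _ _,
    fun x hx => by
      obtain ⟨n, hn⟩ := hx
      by_cases hnm : n = m
      · exact ⟨a, by simp [hn, hnm, fold_e_self he h]⟩
      · exact ⟨n, by simp [hn, fold_e_ne he hnm]⟩⟩

theorem Sg.tendsto_const (he : Orthonormal 𝕜 e) {f : Sg 𝕜 e →ᵇ ℂ} (hf : f ∈ LUC (Sg 𝕜 e))
    (a : ℕ) : Tendsto (fun m => f (Sg.const he m)) atTop (𝓝 (f (Sg.const he a))) := by
  classical
  let s : ℕ → Sg 𝕜 e := fun m => if h : a ≠ m then Sg.fold he h else Sg.one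
  have hev : ∀ᶠ m in atTop, a ≠ m := (eventually_gt_atTop a).mono fun m hm => hm.ne
  have hs : Tendsto s atTop (𝓝 Sg.one) := by
    rw [Sg.isEmbedding.tendsto_nhds_iff, tendsto_pi_nhds]
    intro x
    refine (fold_tendsto he a (x.2.2 a)).congr' (hev.mono fun m hm => ?_)
    simp only [s, Function.comp, dif_pos hm]
    rfl
  have hc : Continuous fun s : Sg 𝕜 e => leftTranslate s f := hf
  have h1 : Tendsto (fun m => leftTranslate (s m) f) atTop (𝓝 f) := (hc.tendsto Sg.one).comp hs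
  rw [tendsto_iff_norm_sub_tendsto_zero] at h1 ⊢
  refine squeeze_zero' (Eventually.of_forall fun m => norm_nonneg _) (hev.mono fun m hm => ?_) h1
  have h2 : s m * Sg.const he m = Sg.const he a := by
    apply Subtype.ext
    funext x
    apply Subtype.ext
    simp only [s, dif_pos hm]
    change toWeakSpace 𝕜 E (MP_155d71_an.fold 𝕜 (e a - e m)
      ((toWeakSpace 𝕜 E).symm (toWeakSpace 𝕜 E (e m)))) = toWeakSpace 𝕜 E (e a)
    rw [LinearEquiv.symm_apply_apply, fold_e_self he hm]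
  have h3 := (leftTranslate (s m) f - f).norm_coe_le_norm (Sg.const he m)
  have h4 : (leftTranslate (s m) f - f) (Sg.const he m)
      = f (s m * Sg.const he m) - f (Sg.const he m) := rfl
  rw [h4, h2, norm_sub_rev] at h3
  exact h3

theorem Sg.ela (he : Orthonormal 𝕜 e) : IsExtremelyLeftAmenable (Sg 𝕜 e) := by
  refine ela_of_point (Sg.const he 0) fun f hf s => ?_
  obtain ⟨n, hn⟩ := s.2.2.2 ⟨toWeakSpace 𝕜 E (e 0), e_mem he 0⟩ ⟨0, by simp⟩
  have h : s * Sg.const he 0 = Sg.const he n := by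
    apply Subtype.ext
    funext x
    apply Subtype.ext
    apply (toWeakSpace 𝕜 E).symm.injective
    exact hn
  rw [h]
  exact tendsto_nhds_unique (Sg.tendsto_const he hf n) (Sg.tendsto_const he hf 0)

theorem Sg.no_fixed_point (he : Orthonormal 𝕜 e) :
    ¬ ∃ z : posBall 𝕜 e, ∀ s : Sg 𝕜 e, s.1 z = z := by
  rintro ⟨z, hz⟩
  have h0 := congrArg Subtype.val (hz (Sg.const he 0))
  have h1 := congrArg Subtype.val (hz (Sg.const he 1))
  have h2 : e 0 = e 1 := (toWeakSpace 𝕜 E).injective (h0.trans h1.symm)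
  exact absurd (he.linearIndependent.injective h2) (by norm_num)

end Hilbert

theorem orthonormal_single (𝕜 : Type*) [RCLike 𝕜] :
    Orthonormal 𝕜 fun n : ℕ => (lp.single 2 n (1 : 𝕜) : lp (fun _ : ℕ => 𝕜) 2) := by
  rw [orthonormal_iff_ite]
  intro i j
  rw [lp.inner_single_left, lp.single_apply]
  by_cases h : i = j
  · simp [h]
  · simp [h]

end Pool.Agent.P.MP_155d71_an
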