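import Pool.Agent.P.MP_155d71_an.Defs

/-!
Definitions for the hand-in `SchurIff` of MP_155d71_an.
-/

open scoped BoundedContinuousFunction Topology
open Filter

namespace Pool.Agent.P.MP_155d71_an.Sch

/-- `LUC(S)`: the `f ∈ C_b(S)` for which `s ↦ ℓ_s f` is continuous for the sup norm. -/
def LUC (S : Type) [Semigroup S] [TopologicalSpace S] [SeparatelyContinuousMul S] :
    Set (S →ᵇ ℂ) :=
  {f | Continuous fun s : S => leftTranslate s f}

/-- `S` is extremely left amenable: `LUC(S)` carries a multiplicative left invariant mean, that is a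
functional `m`, linear on `LUC(S)`, with `m 1 = 1` and norm at most (hence equal to) one there.
The values of `m` outside `LUC(S)` play no role. -/
def ELA (S : Type) [Semigroup S] [TopologicalSpace S] [SeparatelyContinuousMul S] : Prop :=
  ∃ m : (S →ᵇ ℂ) → ℂ, m 1 = 1 ∧ ∀ f ∈ LUC S, ‖m f‖ ≤ ‖f‖ ∧ (∀ r : ℂ, m (r • f) = r * m f) ∧
    (∀ s : S, m (leftTranslate s f) = m f) ∧
    ∀ g ∈ LUC S, m (f + g) = m f + m g ∧ m (f * g) = m f * m g

/-- Schur property of a set `D`: weakly convergent sequences in `D` converge in norm. -/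
def Schur {𝕜 E : Type} [RCLike 𝕜] [NormedAddCommGroup E] [NormedSpace 𝕜 E]
    (D : Set (WeakSpace 𝕜 E)) : Prop :=
  ∀ (x : ℕ → E) (y : E), (∀ n, toWeakSpace 𝕜 E (x n) ∈ D) →
    Tendsto (fun n => toWeakSpace 𝕜 E (x n)) atTop (𝓝 (toWeakSpace 𝕜 E y)) →
    Tendsto x atTop (𝓝 y)

/-- A self-map of `D` that respects convex combinations. -/
def IsAffineOn {𝕜 E : Type} [RCLike 𝕜] [NormedAddCommGroup E] [NormedSpace 𝕜 E]
    {D : Set (WeakSpace 𝕜 E)} (f : D → D) : Prop :=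
  ∀ (x y z : D) (a b : ℝ), 0 ≤ a → 0 ≤ b → a + b = 1 →
    (z : WeakSpace 𝕜 E) = (a : 𝕜) • (x : WeakSpace 𝕜 E) + (b : 𝕜) • (y : WeakSpace 𝕜 E) →
    (f z : WeakSpace 𝕜 E) = (a : 𝕜) • (f x : WeakSpace 𝕜 E) + (b : 𝕜) • (f y : WeakSpace 𝕜 E)

/-- `D` is convex. -/
def IsConvexSet {𝕜 E : Type} [RCLike 𝕜] [NormedAddCommGroup E] [NormedSpace 𝕜 E]
    (D : Set (WeakSpace 𝕜 E)) : Prop :=
  ∀ x ∈ D, ∀ y ∈ D, ∀ a b : ℝ, 0 ≤ a → 0 ≤ b → a + b = 1 → (a : 𝕜) • x + (b : 𝕜) • y ∈ D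

/-- The statement of Q1 for the set `C`. -/
def HasFP {𝕜 E : Type} [RCLike 𝕜] [NormedAddCommGroup E] [NormedSpace 𝕜 E]
    (C : Set (WeakSpace 𝕜 E)) : Prop :=
  ∀ (S : Type) [Semigroup S] [TopologicalSpace S] [T2Space S] [SeparatelyContinuousMul S],
    ELA S → ∀ (T : S → C → C) (c : C), IsWeaklyContNonexpRep C T →
      HasRelWeaklyCompactOrbit C T c → ∃ z : C, ∀ s, T s z = z

/-- The statement of Q1 for the set `D`, restricted to semigroups with jointly continuous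
multiplication and, when `D` is norm bounded, to affine maps. -/
def HasAffineFP {𝕜 E : Type} [RCLike 𝕜] [NormedAddCommGroup E] [NormedSpace 𝕜 E]
    (D : Set (WeakSpace 𝕜 E)) : Prop :=
  ∀ (S : Type) [Semigroup S] [TopologicalSpace S] [T2Space S] [ContinuousMul S],
    ELA S → ∀ (T : S → D → D) (c : D), IsWeaklyContNonexpRep D T →
      (Bornology.IsBounded ((toWeakSpace 𝕜 E).symm '' D) → ∀ s, IsAffineOn (T s)) →
        HasRelWeaklyCompactOrbit D T c → ∃ z : D, ∀ s, T s z = z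

end Pool.Agent.P.MP_155d71_an.Sch
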