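import Pool.Agent.P.MP_155d71_an.SchPos

open scoped BoundedContinuousFunction Topology
open Filter RCLike

noncomputable section

namespace Pool.Agent.P.MP_155d71_an.Sch

variable {𝕜 E : Type} [RCLike 𝕜] [NormedAddCommGroup E] [NormedSpace 𝕜 E]

theorem exists_funct {x : ℕ → E} {y : E}
    (hw : Tendsto (fun n => toWeakSpace 𝕜 E (x n)) atTop (𝓝 (toWeakSpace 𝕜 E y)))
    (hn : ¬ Tendsto x atTop (𝓝 y)) :
    ∃ (M : ℝ) (U : Ultrafilter ℕ) (φ : ℕ → StrongDual 𝕜 E), 0 < M ∧ (∀ k, ‖φ k‖ ≤ M) ∧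
      (∀ v, Tendsto (fun k => φ k v) U (𝓝 0)) ∧ ∀ᶠ k in U, re (φ k (x k - y)) = 1 := by
  rw [Metric.tendsto_nhds] at hn
  push Not at hn
  obtain ⟨δ, hδ, hfr⟩ := hn
  have hne : (atTop ⊓ 𝓟 {k | δ ≤ dist (x k) y}).NeBot := frequently_iff_neBot.1 hfr
  let U : Ultrafilter ℕ := Ultrafilter.of (atTop ⊓ 𝓟 {k | δ ≤ dist (x k) y})
  have hU : (U : Filter ℕ) ≤ atTop ⊓ 𝓟 {k | δ ≤ dist (x k) y} := Ultrafilter.of_le _
  have hU1 : (U : Filter ℕ) ≤ atTop := hU.trans inf_le_left
  have hU2 : ∀ᶠ k in U, δ ≤ dist (x k) y := le_principal_iff.1 (hU.trans inf_le_right)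
  choose ψ hψ1 hψ2 using fun k => exists_dual_vector'' 𝕜 (x k - y)
  obtain ⟨χ, hχ, hlim⟩ := (WeakDual.isCompact_closedBall (𝕜 := 𝕜) (0 : StrongDual 𝕜 E) 1).ultrafilter_le_nhds
    (U.map fun k => StrongDual.toWeakDual (ψ k)) (by
      rw [le_principal_iff, Ultrafilter.mem_coe, Ultrafilter.mem_map]
      exact univ_mem' fun k => mem_closedBall_zero_iff.2 (hψ1 k))
  have hχ1 : ‖WeakDual.toStrongDual χ‖ ≤ 1 := mem_closedBall_zero_iff.1 hχ
  have hl : ∀ v, Tendsto (fun k => (ψ k - WeakDual.toStrongDual χ) v) U (𝓝 0) := by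
    intro v
    have h1 : Tendsto (fun k => ψ k v) U (𝓝 (χ v)) :=
      ((WeakDual.eval_continuous v).tendsto χ).comp hlim
    have h2 := h1.sub_const (χ v)
    rw [sub_self] at h2
    exact h2
  have h0 : Tendsto (fun k => re (WeakDual.toStrongDual χ (x k - y))) atTop (𝓝 0) := by
    have h1 : Tendsto (fun k => WeakDual.toStrongDual χ (x k)) atTop
        (𝓝 (WeakDual.toStrongDual χ y)) :=
      ((cont_eval (WeakDual.toStrongDual χ)).tendsto _).comp hw
    have h2 := h1.sub_const (WeakDual.toStrongDual χ y)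
    rw [sub_self] at h2
    have h3 := (RCLike.continuous_re.tendsto _).comp h2
    rw [map_zero] at h3
    exact h3.congr fun k => by simp
  have h1 : ∀ᶠ k in U, re (WeakDual.toStrongDual χ (x k - y)) < δ / 2 :=
    hU1 (h0.eventually (gt_mem_nhds (by positivity)))
  let r : ℕ → ℝ := fun k => max (re ((ψ k - WeakDual.toStrongDual χ) (x k - y))) (δ / 2)
  have hr : ∀ k, δ / 2 ≤ r k := fun k => le_max_right _ _
  have hr0 : ∀ k, 0 < r k := fun k => lt_of_lt_of_le (by positivity) (hr k)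
  have hr1 : ∀ k, ‖(((r k)⁻¹ : ℝ) : 𝕜)‖ ≤ (δ / 2)⁻¹ := fun k => by
    rw [RCLike.norm_ofReal, abs_of_pos (inv_pos.2 (hr0 k))]
    exact inv_anti₀ (by positivity) (hr k)
  refine ⟨(δ / 2)⁻¹ * 2, U, fun k => (((r k)⁻¹ : ℝ) : 𝕜) • (ψ k - WeakDual.toStrongDual χ),
    by positivity, fun k => ?_, fun v => ?_, ?_⟩
  · rw [norm_smul]
    refine mul_le_mul (hr1 k) ((norm_sub_le _ _).trans ?_) (norm_nonneg _) (by positivity)
    linarith [hψ1 k]
  · refine squeeze_zero_norm (a := fun k => (δ / 2)⁻¹ * ‖(ψ k - WeakDual.toStrongDual χ) v‖)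
      (fun k => ?_) ?_
    · rw [smul_apply, norm_smul]
      exact mul_le_mul_of_nonneg_right (hr1 k) (norm_nonneg _)
    · simpa using (hl v).norm.const_mul (δ / 2)⁻¹
  · filter_upwards [hU2, h1] with k h2 h3
    have h4 : δ / 2 ≤ re ((ψ k - WeakDual.toStrongDual χ) (x k - y)) := by
      rw [sub_apply, hψ2, map_sub, RCLike.ofReal_re, ← dist_eq_norm]
      linarith
    have h5 : r k = re ((ψ k - WeakDual.toStrongDual χ) (x k - y)) := max_eq_left h4
    rw [smul_apply, smul_eq_mul, RCLike.re_ofReal_mul, ← h5,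
      inv_mul_cancel₀ (hr0 k).ne']

/-- Weakly continuous nonexpansive maps `D → K`, affine if `P` holds. -/
def Sg (D K : Set (WeakSpace 𝕜 E)) (P : Prop) : Type :=
  {s : D → D // (∀ u v, ‖(toWeakSpace 𝕜 E).symm (s u) - (toWeakSpace 𝕜 E).symm (s v)‖ ≤
      ‖(toWeakSpace 𝕜 E).symm u - (toWeakSpace 𝕜 E).symm v‖) ∧ Continuous s ∧
    (P → IsAffineOn s) ∧ ∀ v, (s v).1 ∈ K}

namespace Sg

variable {D K : Set (WeakSpace 𝕜 E)} {P : Prop}

instance : Semigroup (Sg D K P) where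
  mul s t := ⟨s.1 ∘ t.1, fun u v => (s.2.1 _ _).trans (t.2.1 u v), s.2.2.1.comp t.2.2.1,
    fun hP x y z a b ha hb hab h =>
      s.2.2.2.1 hP _ _ _ a b ha hb hab (t.2.2.2.1 hP x y z a b ha hb hab h),
    fun _ => s.2.2.2.2 _⟩
  mul_assoc _ _ _ := rfl

/-- The embedding that defines the topology of pointwise norm convergence. -/
def emb (s : Sg D K P) (v : D) : E := (toWeakSpace 𝕜 E).symm (s.1 v)

instance : TopologicalSpace (Sg D K P) := TopologicalSpace.induced emb inferInstance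

theorem cont_emb (v : D) : Continuous fun s : Sg D K P => s.emb v :=
  (continuous_apply v).comp (continuous_induced_dom (f := emb (D := D) (K := K) (P := P)))

theorem tendsto_iff {α : Type} {l : Filter α} {g : α → Sg D K P} {s : Sg D K P} :
    Tendsto g l (𝓝 s) ↔ ∀ v, Tendsto (fun a => (g a).emb v) l (𝓝 (s.emb v)) := by
  rw [nhds_induced, tendsto_comap_iff, tendsto_pi_nhds]; rfl

instance : T2Space (Sg D K P) :=
  T2Space.of_injective_continuous (f := emb)
    (fun _ _ h => Subtype.ext (funext fun v => Subtype.ext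
      ((toWeakSpace 𝕜 E).symm.injective (congrFun h v)))) continuous_induced_dom

instance : ContinuousMul (Sg D K P) := by
  refine ⟨continuous_iff_continuousAt.2 fun p => tendsto_iff.2 fun v => ?_⟩
  rw [tendsto_iff_norm_sub_tendsto_zero]
  have h1 : Tendsto (fun q : Sg D K P × Sg D K P => ‖q.2.emb v - p.2.emb v‖) (𝓝 p) (𝓝 0) :=
    tendsto_iff_norm_sub_tendsto_zero.1 (((cont_emb v).comp continuous_snd).tendsto p)
  have h2 : Tendsto (fun q : Sg D K P × Sg D K P => ‖q.1.emb (p.2.1 v) - p.1.emb (p.2.1 v)‖)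
      (𝓝 p) (𝓝 0) :=
    tendsto_iff_norm_sub_tendsto_zero.1 (((cont_emb _).comp continuous_fst).tendsto p)
  refine squeeze_zero (fun _ => norm_nonneg _) (fun q => ?_) (by simpa using h1.add h2)
  exact (norm_sub_le_norm_sub_add_norm_sub _ (q.1.emb (p.2.1 v)) _).trans
    (add_le_add_left (q.1.2.1 _ _) _)

/-- The constant maps. -/
def cst (z : D) (hz : z.1 ∈ K) : Sg D K P :=
  ⟨fun _ => z, fun _ _ => by simp, continuous_const, fun _ _ _ _ a b _ _ hab _ => by
    rw [← add_smul, ← RCLike.ofReal_add, hab, RCLike.ofReal_one, one_smul], fun _ => hz⟩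

theorem ela (y : D) (hy : y.1 ∈ K)
    (h : ∀ f ∈ LUC (Sg D K P), ∀ z hz, f (cst z hz) = f (cst y hy)) : ELA (Sg D K P) := by
  exact ⟨fun f => f (cst y hy), rfl, fun f hf => ⟨f.norm_coe_le_norm _, fun _ => rfl,
    fun s => h f hf (s.1 y) (s.2.2.2.2 y), fun _ _ => ⟨rfl, rfl⟩⟩⟩

/-- Along one segment of `K` the values of an `LUC` function at the constants agree. -/
theorem seg (hKD : K ⊆ D) {x : ℕ → E} {y : E} (hx : ∀ k, toWeakSpace 𝕜 E (x k) ∈ K)
    {M : ℝ} {U : Ultrafilter ℕ} {φ : ℕ → StrongDual 𝕜 E} (hM : 0 < M) (h1 : ∀ k, ‖φ k‖ ≤ M)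
    (h2 : ∀ v, Tendsto (fun k => φ k v) U (𝓝 0)) (h3 : ∀ᶠ k in U, re (φ k (x k - y)) = 1)
    {R : ℝ} (hP : P → ∀ v : D, ‖(toWeakSpace 𝕜 E).symm v - y‖ ≤ R) (u : E)
    (hu : ∀ t : ℝ, 0 ≤ t → t ≤ 1 → toWeakSpace 𝕜 E (y + (t : 𝕜) • u) ∈ K)
    (f : Sg D K P →ᵇ ℂ) (hf : f ∈ LUC (Sg D K P)) (t : ℝ) (h0 : 0 ≤ t) (h0' : t ≤ 1) :
    f (cst ⟨_, hKD (hu t h0 h0')⟩ (hu t h0 h0')) =
      f (cst ⟨_, hKD (hu 0 le_rfl zero_le_one)⟩ (hu 0 le_rfl zero_le_one)) := by
  let θ : ℝ → ℝ := fun a => max 0 (min 1 a)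
  have θ0 : ∀ a, 0 ≤ θ a := fun a => le_max_left _ _
  have θ1 : ∀ a, θ a ≤ 1 := fun a => max_le zero_le_one (min_le_left _ _)
  have θe : ∀ a, 0 ≤ a → a ≤ 1 → θ a = a := fun a ha hb => by
    simp only [θ, min_eq_right hb, max_eq_right ha]
  have θl : ∀ a b, |θ a - θ b| ≤ |a - b| := fun a b => by
    refine (abs_max_sub_max_le_max _ _ _ _).trans (max_le (by simp) ?_)
    exact (abs_min_sub_min_le_max _ _ _ _).trans (max_le (by simp) le_rfl)
  have θc : Continuous θ := continuous_const.max (continuous_const.min continuous_id)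
  let pt : ℝ → D := fun a => ⟨_, hKD (hu (θ a) (θ0 a) (θ1 a))⟩
  have ptK : ∀ a, (pt a).1 ∈ K := fun a => hu (θ a) (θ0 a) (θ1 a)
  have pte : ∀ a, (toWeakSpace 𝕜 E).symm (pt a).1 = y + (θ a : 𝕜) • u := fun a => rfl
  have cE : Continuous fun a : ℝ => y + (θ a : 𝕜) • u :=
    continuous_const.add ((RCLike.continuous_ofReal.comp θc).smul continuous_const)
  have ptc : Continuous pt := ((toWeakSpaceCLM 𝕜 E).continuous.comp cE).subtype_mk _
  let c : ℝ → Sg D K P := fun a => cst (pt a) (ptK a)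
  have cc : Continuous c := continuous_iff_continuousAt.2 fun a =>
    tendsto_iff.2 fun _ => cE.tendsto a
  have hG : Continuous fun a => f (c a) := f.continuous.comp cc
  have key : ∀ a ∈ Set.Ioo (0 : ℝ) 1, ∀ᶠ b in 𝓝 a, f (c b) = f (c a) := by
    intro a ha
    have e1 : ∀ᶠ b in 𝓝 a, |b - a| * M * ‖u‖ < 1 :=
      (by fun_prop : Continuous fun b : ℝ => |b - a| * M * ‖u‖).continuousAt.eventually_lt
        continuousAt_const (by simp)
    have e2 : ∀ᶠ b in 𝓝 a, |b - a| * M * R < min a (1 - a) :=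
      (by fun_prop : Continuous fun b : ℝ => |b - a| * M * R).continuousAt.eventually_lt
        continuousAt_const (by simpa using ha)
    filter_upwards [e1, e2] with b e1 e2
    let L : ℕ → D → ℝ := fun k v => a + (b - a) * re (φ k ((toWeakSpace 𝕜 E).symm v.1 - y))
    have hb : ∀ k (v : E), |(b - a) * re (φ k v)| ≤ |b - a| * M * ‖v‖ := fun k v => by
      rw [abs_mul, mul_assoc]
      refine mul_le_mul_of_nonneg_left ((RCLike.abs_re_le_norm _).trans
        (((φ k).le_opNorm v).trans ?_)) (abs_nonneg _)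
      exact mul_le_mul_of_nonneg_right (h1 k) (norm_nonneg _)
    let s : ℕ → Sg D K P := fun k => ⟨fun v => pt (L k v), fun v w => by
        rw [pte, pte, add_sub_add_left_eq_sub, ← sub_smul, norm_smul, ← RCLike.ofReal_sub,
          RCLike.norm_ofReal]
        have e : L k v - L k w =
            (b - a) * re (φ k ((toWeakSpace 𝕜 E).symm v.1 - (toWeakSpace 𝕜 E).symm w.1)) := by
          simp only [L, map_sub]; ring
        have h4 := θl (L k v) (L k w)
        rw [e] at h4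
        have h5 := mul_le_mul_of_nonneg_right (h4.trans (hb k _)) (norm_nonneg u)
        have h6 := mul_le_mul_of_nonneg_right e1.le
          (norm_nonneg ((toWeakSpace 𝕜 E).symm v.1 - (toWeakSpace 𝕜 E).symm w.1))
        linarith, by
        refine ptc.comp (continuous_const.add (continuous_const.mul
          (RCLike.continuous_re.comp ?_)))
        simp only [map_sub]
        exact ((cont_eval (φ k)).comp continuous_subtype_val).sub continuous_const, by
        intro hp v w z α β hα hβ hαβ hz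
        have hL : ∀ v, θ (L k v) = L k v := fun v => by
          have h4 := (hb k ((toWeakSpace 𝕜 E).symm v.1 - y)).trans
            (mul_le_mul_of_nonneg_left (hP hp v) (by positivity))
          have h5 := abs_le.1 (h4.trans e2.le)
          have h6 := min_le_left a (1 - a)
          have h7 := min_le_right a (1 - a)
          exact θe _ (by simp only [L]; linarith [h5.1]) (by simp only [L]; linarith [h5.2])
        have hz' : (toWeakSpace 𝕜 E).symm z.1 - y = (α : 𝕜) • ((toWeakSpace 𝕜 E).symm v.1 - y) +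
            (β : 𝕜) • ((toWeakSpace 𝕜 E).symm w.1 - y) := by
          rw [hz, map_add, map_smul, map_smul, smul_sub, smul_sub, sub_add_sub_comm, ← add_smul,
            ← RCLike.ofReal_add, hαβ, RCLike.ofReal_one, one_smul]
        have hLz : L k z = α * L k v + β * L k w := by
          simp only [L]
          rw [hz', map_add, map_smul, map_smul, map_add, smul_eq_mul, smul_eq_mul,
            RCLike.re_ofReal_mul, RCLike.re_ofReal_mul]
          linear_combination (-a) * hαβ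
        apply (toWeakSpace 𝕜 E).symm.injective
        rw [map_add, map_smul, map_smul, pte, pte, pte, hL, hL, hL, hLz, smul_add, smul_add,
          add_add_add_comm, ← add_smul, ← RCLike.ofReal_add, hαβ, RCLike.ofReal_one, one_smul,
          smul_smul, smul_smul, ← add_smul]
        push_cast; rfl, fun v => ptK _⟩
    have hs : Tendsto s U (𝓝 (c a)) := tendsto_iff.2 fun v => by
      have h4 : Tendsto (fun k => L k v) U (𝓝 a) := by
        have h5 := ((RCLike.continuous_re.tendsto _).comp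
          (h2 ((toWeakSpace 𝕜 E).symm v.1 - y))).const_mul (b - a)
        have h6 := h5.const_add a
        rw [map_zero, mul_zero, add_zero] at h6
        exact h6
      exact (cE.tendsto a).comp h4
    have hl : Tendsto (fun k => leftTranslate (s k) f) U (𝓝 (leftTranslate (c a) f)) :=
      ((show Continuous fun s => leftTranslate s f from hf).tendsto _).comp hs
    refine eq_of_forall_dist_le fun ε hε => ?_
    obtain ⟨k, hk1, hk2⟩ := ((Metric.tendsto_nhds.1 hl ε hε).and h3).exists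
    have h4 := BoundedContinuousFunction.dist_coe_le_dist (f := leftTranslate (s k) f)
      (g := leftTranslate (c a) f) (cst ⟨_, hKD (hx k)⟩ (hx k))
    have h5 : s k * cst ⟨_, hKD (hx k)⟩ (hx k) = c b := by
      apply Subtype.ext
      funext v
      show pt (a + (b - a) * re (φ k (x k - y))) = pt b
      rw [hk2]; congr 1; ring
    have h6 : leftTranslate (s k) f (cst ⟨_, hKD (hx k)⟩ (hx k)) = f (c b) := congrArg f h5
    rw [h6] at h4
    exact h4.trans hk1.le
  have half : ∀ a ∈ Set.Ioo (0 : ℝ) 1, f (c a) = f (c (1 / 2)) := fun a ha =>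
    isPreconnected_Ioo.induction₂' (fun a b => f (c a) = f (c b))
      (fun a ha => ((key a ha).filter_mono nhdsWithin_le_nhds).mono fun b hb => ⟨hb.symm, hb⟩)
      (fun _ _ _ _ _ _ => Eq.trans) ha ⟨by norm_num, by norm_num⟩
  have half' : ∀ a ∈ Set.Icc (0 : ℝ) 1, f (c a) = f (c (1 / 2)) := by
    rw [← closure_Ioo zero_ne_one]
    exact fun a ha => closure_minimal (t := {a | f (c a) = f (c (1 / 2))}) half
      (isClosed_eq hG continuous_const) ha
  have ce : ∀ a (h : 0 ≤ a) (h' : a ≤ 1), cst ⟨_, hKD (hu a h h')⟩ (hu a h h') = c a := by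
    intro a h h'
    apply Subtype.ext
    funext v
    apply Subtype.ext
    show toWeakSpace 𝕜 E (y + (a : 𝕜) • u) = toWeakSpace 𝕜 E (y + (θ a : 𝕜) • u)
    rw [θe a h h']
  rw [ce t h0 h0', ce 0 le_rfl zero_le_one, half' t ⟨h0, h0'⟩, half' 0 ⟨le_rfl, zero_le_one⟩]

end Sg

theorem exists_counter {D : Set (WeakSpace 𝕜 E)} (hD : IsClosed D)
    (hc : ∀ x ∈ D, ∀ y ∈ D, ∀ a b : ℝ, 0 ≤ a → 0 ≤ b → a + b = 1 →
      (a : 𝕜) • x + (b : 𝕜) • y ∈ D) (hS : ¬ Schur D) :
    ∃ K : Set (WeakSpace 𝕜 E), D.Nonempty ∧ IsCompact K ∧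
      ELA (Sg D K (Bornology.IsBounded ((toWeakSpace 𝕜 E).symm '' D))) ∧
      ¬ ∃ z : D, ∀ s : Sg D K (Bornology.IsBounded ((toWeakSpace 𝕜 E).symm '' D)), s.1 z = z := by
  unfold Schur at hS
  push Not at hS
  obtain ⟨x, y, hx, hw, hn⟩ := hS
  obtain ⟨M, U, φ, hM, h1, h2, h3⟩ := exists_funct hw hn
  have hy : toWeakSpace 𝕜 E y ∈ D := hD.mem_of_tendsto hw (Eventually.of_forall hx)
  let A : Set (WeakSpace 𝕜 E) :=
    insert (toWeakSpace 𝕜 E y) (Set.range fun n => toWeakSpace 𝕜 E (x n))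
  let g : ℝ × WeakSpace 𝕜 E → WeakSpace 𝕜 E := fun p =>
    toWeakSpace 𝕜 E y + (p.1 : 𝕜) • (p.2 - toWeakSpace 𝕜 E y)
  let K := g '' (Set.Icc 0 1 ×ˢ A)
  have hK : IsCompact K := (isCompact_Icc.prod hw.isCompact_insert_range).image
    (continuous_const.add ((RCLike.continuous_ofReal.comp continuous_fst).smul
      (continuous_snd.sub continuous_const)))
  have hAD : A ⊆ D := by
    rintro _ (rfl | ⟨n, rfl⟩)
    exacts [hy, hx n]
  have hKD : K ⊆ D := by
    rintro _ ⟨⟨t, a⟩, ⟨ht, ha⟩, rfl⟩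
    have := hc _ hy _ (hAD ha) (1 - t) t (sub_nonneg.2 ht.2) ht.1 (by ring)
    convert this using 1
    simp only [g]
    push_cast
    module
  have hAK : A ⊆ K := fun a ha => ⟨(1, a), ⟨⟨zero_le_one, le_rfl⟩, ha⟩, by simp [g]⟩
  have hyK : toWeakSpace 𝕜 E y ∈ K := hAK (Or.inl rfl)
  have hxK : ∀ k, toWeakSpace 𝕜 E (x k) ∈ K := fun k => hAK (Or.inr ⟨k, rfl⟩)
  obtain ⟨R, -, hP⟩ : ∃ R : ℝ, 0 < R ∧ (Bornology.IsBounded ((toWeakSpace 𝕜 E).symm '' D) →
      ∀ v : D, ‖(toWeakSpace 𝕜 E).symm v - y‖ ≤ R) := by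
    by_cases hb : Bornology.IsBounded ((toWeakSpace 𝕜 E).symm '' D)
    · obtain ⟨R, hR, h⟩ := hb.subset_closedBall_lt 0 y
      exact ⟨R, hR, fun _ v => mem_closedBall_iff_norm.1 (h ⟨_, v.2, rfl⟩)⟩
    · exact ⟨1, one_pos, fun h => absurd h hb⟩
  refine ⟨K, ⟨_, hy⟩, hK, Sg.ela ⟨_, hy⟩ hyK fun f hf z hz => ?_, ?_⟩
  · obtain ⟨⟨t, a⟩, ⟨ht, ha⟩, e⟩ := id hz
    obtain ⟨z, hzD⟩ := z
    obtain rfl : g (t, a) = z := e
    have := Sg.seg hKD hxK hM h1 h2 h3 hP ((toWeakSpace 𝕜 E).symm a - y)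
      (fun t h h' => ⟨(t, a), ⟨⟨h, h'⟩, ha⟩, rfl⟩) f hf t ht.1 ht.2
    refine this.trans (congrArg f (Subtype.ext (funext fun _ => Subtype.ext ?_)))
    show toWeakSpace 𝕜 E (y + ((0 : ℝ) : 𝕜) • _) = toWeakSpace 𝕜 E y
    simp
  · rintro ⟨z, hz⟩
    apply hn
    have e : ∀ k, x k = y := fun k => (toWeakSpace 𝕜 E).injective (congrArg Subtype.val
      ((hz (Sg.cst ⟨_, hx k⟩ (hxK k))).trans (hz (Sg.cst ⟨_, hy⟩ hyK)).symm))
    exact tendsto_const_nhds.congr fun k => (e k).symm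

end Pool.Agent.P.MP_155d71_an.Sch
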