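import Pool.Agent.P.MP_155d71_an.SchDefs

open scoped BoundedContinuousFunction Topology
open Filter

namespace Pool.Agent.P.MP_155d71_an.Sch

theorem fix_of_compact {S X : Type} [Semigroup S] [TopologicalSpace S]
    [SeparatelyContinuousMul S] [MetricSpace X] [CompactSpace X] (h : ELA S) (T : S → X → X)
    (hmul : ∀ s t x, T (s * t) x = T s (T t x))
    (hlip : ∀ s x y, dist (T s x) (T s y) ≤ dist x y)
    (hc : ∀ x, Continuous fun s => T s x) (c : X) : ∃ z, ∀ s, T s z = z := by
  obtain ⟨m, h1, hm⟩ := h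
  have hl : ∀ s, LipschitzWith 1 (T s) := fun s => LipschitzWith.mk_one (hlip s)
  have hj : Continuous fun p : S × X => T p.1 p.2 :=
    continuous_prod_of_continuous_lipschitzWith' (fun p : S × X => T p.1 p.2) 1 hl hc
  let τ : S → C(X, X) := fun s => ⟨T s, (hl s).continuous⟩
  have hτ : Continuous τ := ContinuousMap.continuous_of_continuous_uncurry τ hj
  let Φ : C(X, ℂ) → (S →ᵇ ℂ) := fun g =>
    (BoundedContinuousFunction.mkOfCompact g).compContinuous ⟨fun t => T t c, hc c⟩
  have hΦ : Continuous Φ :=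
    (BoundedContinuousFunction.continuous_compContinuous _).comp
      (ContinuousMap.isometryEquivBoundedOfCompact X ℂ).continuous
  have hΦl : ∀ s g, leftTranslate s (Φ g) = Φ (g.comp (τ s)) := by
    intro s g
    ext t
    show g (T (s * t) c) = g (T s (T t c))
    rw [hmul]
  have hmem : ∀ g, Φ g ∈ LUC S := by
    intro g
    show Continuous fun s : S => leftTranslate s (Φ g)
    simp only [hΦl]
    exact hΦ.comp ((ContinuousMap.continuous_postcomp g).comp hτ)
  have hc1 : ∀ r : ℂ, m (Φ (algebraMap ℂ C(X, ℂ) r)) = r := fun r => by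
    have e : Φ (algebraMap ℂ C(X, ℂ) r) = r • Φ 1 := by
      ext t
      show algebraMap ℂ C(X, ℂ) r (T t c) = r • (1 : ℂ)
      simp
    have e1 : m (Φ 1) = 1 := h1
    rw [e, (hm _ (hmem 1)).2.1, e1, mul_one]
  let χ : C(X, ℂ) →ₐ[ℂ] ℂ :=
    { toFun := fun g => m (Φ g)
      map_one' := h1
      map_mul' := fun f g => ((hm _ (hmem f)).2.2.2 _ (hmem g)).2
      map_zero' := by simpa using hc1 0
      map_add' := fun f g => ((hm _ (hmem f)).2.2.2 _ (hmem g)).1
      commutes' := hc1 }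
  have hbij := WeakDual.CharacterSpace.continuousMapEval_bijective X ℂ
  obtain ⟨z, hz⟩ := hbij.2 (WeakDual.CharacterSpace.equivAlgHom.symm χ)
  have hz' : ∀ g : C(X, ℂ), g z = m (Φ g) := fun g => by
    have := DFunLike.congr_fun hz g
    rw [WeakDual.CharacterSpace.continuousMapEval_apply_apply] at this
    exact this
  refine ⟨z, fun s => hbij.1 ?_⟩
  ext g
  rw [WeakDual.CharacterSpace.continuousMapEval_apply_apply,
    WeakDual.CharacterSpace.continuousMapEval_apply_apply]
  have e := hz' (g.comp (τ s))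
  rw [← hΦl, (hm _ (hmem g)).2.2.1, ← hz' g] at e
  exact e

variable {𝕜 E : Type} [RCLike 𝕜] [NormedAddCommGroup E] [NormedSpace 𝕜 E]

theorem cont_eval (φ : StrongDual 𝕜 E) :
    Continuous fun x : WeakSpace 𝕜 E => φ ((toWeakSpace 𝕜 E).symm x) :=
  WeakBilin.eval_continuous (topDualPairing 𝕜 E).flip φ

/-- The easy half of the Eberlein-Smulian theorem. -/
theorem isSeqCompact_of_isCompact {K : Set (WeakSpace 𝕜 E)} (hK : IsCompact K) :
    IsSeqCompact K := by
  intro x hx
  let _ : NormedSpace ℝ E := NormedSpace.restrictScalars ℝ 𝕜 E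
  have : IsScalarTower ℝ 𝕜 E := IsScalarTower.restrictScalars ℝ 𝕜 E
  let Y : Submodule 𝕜 E := Submodule.span 𝕜 (Set.range fun n => (toWeakSpace 𝕜 E).symm (x n))
  have hsep : TopologicalSpace.IsSeparable (closure (Y : Set E)) :=
    ((Set.countable_range _).isSeparable.span).closure
  obtain ⟨c, hc, hcl⟩ := hsep
  have hne : c.Nonempty := by
    have : (closure c).Nonempty := ⟨0, hcl (subset_closure Y.zero_mem)⟩
    exact closure_nonempty_iff.1 this
  obtain ⟨d, rfl⟩ := hc.exists_eq_range hne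
  choose φ hφ1 hφ2 using fun n => exists_dual_vector'' 𝕜 (d n)
  have hsepar : ∀ v ∈ closure (Y : Set E), v ≠ 0 → ∃ n, φ n v ≠ 0 := by
    intro v hv h0
    have hp : 0 < ‖v‖ / 2 := by have := norm_pos_iff.2 h0; positivity
    obtain ⟨_, ⟨n, rfl⟩, hn⟩ := Metric.mem_closure_iff.1 (hcl hv) _ hp
    refine ⟨n, fun h => ?_⟩
    have e : φ n (d n - v) = ‖d n‖ := by rw [map_sub, h, hφ2, sub_zero]
    have h1 := (φ n).le_opNorm (d n - v)
    rw [e, RCLike.norm_ofReal, abs_norm] at h1
    have h2 : ‖φ n‖ * ‖d n - v‖ ≤ 1 * ‖d n - v‖ :=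
      mul_le_mul_of_nonneg_right (hφ1 n) (norm_nonneg _)
    rw [dist_comm, dist_eq_norm] at hn
    have h3 : ‖v‖ ≤ ‖d n‖ + ‖d n - v‖ := by
      have := norm_sub_le (d n) (d n - v)
      rwa [sub_sub_cancel] at this
    linarith
  have hconv : Convex ℝ (Y : Set E) := (Y.restrictScalars ℝ).convex
  let K' : Set (WeakSpace 𝕜 E) := K ∩ closure (toWeakSpace 𝕜 E '' (Y : Set E))
  have hK' : IsCompact K' := hK.inter_right isClosed_closure
  have : CompactSpace K' := isCompact_iff_compactSpace.1 hK'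
  have hmem : ∀ y : K', (toWeakSpace 𝕜 E).symm y.1 ∈ closure (Y : Set E) := by
    intro y
    have h := y.2.2
    rw [← hconv.toWeakSpace_closure 𝕜] at h
    obtain ⟨v, hv, e⟩ := h
    rw [← e]; exact hv
  have : TopologicalSpace.MetrizableSpace K' := by
    refine Metric.PiNatEmbed.TopologicalSpace.MetrizableSpace.of_countable_separating
      (fun n (k : K') => φ n ((toWeakSpace 𝕜 E).symm k.1))
      (fun n => (cont_eval (φ n)).comp continuous_subtype_val) fun y z hyz => ?_
    have hs : (toWeakSpace 𝕜 E).symm y.1 - (toWeakSpace 𝕜 E).symm z.1 ∈ closure (Y : Set E) :=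
      Y.topologicalClosure.sub_mem (hmem y) (hmem z)
    obtain ⟨n, hn⟩ := hsepar _ hs fun h => hyz (Subtype.ext
      ((toWeakSpace 𝕜 E).symm.injective (sub_eq_zero.1 h)))
    exact ⟨n, fun h => hn (by rw [map_sub]; exact sub_eq_zero.2 h)⟩
  have hx' : ∀ n, x n ∈ K' := fun n =>
    ⟨hx n, subset_closure ⟨_, Submodule.subset_span ⟨n, rfl⟩, rfl⟩⟩
  obtain ⟨a, ψ, hψ, ha⟩ := CompactSpace.tendsto_subseq (fun n => (⟨x n, hx' n⟩ : K'))
  exact ⟨a.1, a.2.1, ψ, hψ, (continuous_subtype_val.tendsto a).comp ha⟩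

theorem fix_of_schur {D C : Set (WeakSpace 𝕜 E)} (hD : Schur D) (hCD : C ⊆ D) (hC : IsClosed C)
    {S : Type} [Semigroup S] [TopologicalSpace S] [SeparatelyContinuousMul S] (h : ELA S)
    (T : S → C → C) (c : C) (hT : IsWeaklyContNonexpRep C T)
    (hO : HasRelWeaklyCompactOrbit C T c) : ∃ z, ∀ s, T s z = z := by
  set K := closure (Set.range fun s => (T s c : WeakSpace 𝕜 E)) with hKdef
  have hK : IsCompact K := hO.isCompact_closure
  have hKC : K ⊆ C := closure_minimal (by rintro _ ⟨s, rfl⟩; exact (T s c).2) hC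
  let X : Set E := {v | toWeakSpace 𝕜 E v ∈ K}
  have hX : IsCompact X := by
    refine IsSeqCompact.isCompact fun x hx => ?_
    obtain ⟨a, ha, ψ, hψ, hlim⟩ := isSeqCompact_of_isCompact hK hx
    exact ⟨(toWeakSpace 𝕜 E).symm a, ha, ψ, hψ, hD _ _ (fun n => hCD (hKC (hx _))) hlim⟩
  have : CompactSpace X := isCompact_iff_compactSpace.1 hX
  have hemb : Topology.IsEmbedding fun v : X => toWeakSpace 𝕜 E v.1 :=
    (Continuous.isClosedEmbedding ((toWeakSpaceCLM 𝕜 E).continuous.comp continuous_subtype_val)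
      fun v w e => Subtype.ext ((toWeakSpace 𝕜 E).injective e)).isEmbedding
  have hinv : ∀ s (y : C), y.1 ∈ K → (T s y).1 ∈ K := by
    intro s y hy
    have h1 : y ∈ closure (Set.range fun t => T t c) := by
      rw [closure_subtype, ← Set.range_comp]; exact hy
    have h2 : T s y ∈ closure (Set.range fun t => T t c) :=
      map_mem_closure (hT.continuous_point s) h1
        (by rintro _ ⟨t, rfl⟩; exact ⟨s * t, hT.map_mul s t c⟩)
    rw [closure_subtype, ← Set.range_comp] at h2
    exact h2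
  let j : X → C := fun v => ⟨toWeakSpace 𝕜 E v.1, hKC v.2⟩
  let T' : S → X → X := fun s v => ⟨(toWeakSpace 𝕜 E).symm (T s (j v)).1, hinv s (j v) v.2⟩
  obtain ⟨m, h1, h2⟩ := id h
  have hS : Nonempty S := by
    by_contra hS
    rw [not_nonempty_iff] at hS
    have h3 := (h2 1 (continuous_const (y := (1 : S →ᵇ ℂ)))).1
    rw [h1, norm_one, BoundedContinuousFunction.norm_eq_zero_of_empty] at h3
    exact absurd h3 (by norm_num)
  obtain ⟨s₀⟩ := hS
  have hc' : ∀ v, Continuous fun s => T' s v := fun v => by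
    rw [hemb.continuous_iff]
    have : Continuous fun s => (T s (j v)).1 :=
      continuous_subtype_val.comp (hT.continuous_semigroup (j v))
    exact this
  have h0 : (T s₀ c).1 ∈ K := subset_closure ⟨s₀, rfl⟩
  obtain ⟨z, hz⟩ := fix_of_compact h T'
    (fun s t v => Subtype.ext (congrArg (fun y : C => (toWeakSpace 𝕜 E).symm y.1)
      (hT.map_mul s t (j v))))
    (fun s v w => by
      rw [Subtype.dist_eq, Subtype.dist_eq, dist_eq_norm, dist_eq_norm]
      exact hT.nonexpansive s (j v) (j w))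
    hc' ⟨(toWeakSpace 𝕜 E).symm (T s₀ c).1, h0⟩
  exact ⟨j z, fun s => Subtype.ext (congrArg (fun v : X => toWeakSpace 𝕜 E v.1) (hz s))⟩

end Pool.Agent.P.MP_155d71_an.Sch
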